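import Pool.Agent.HI.A4

set_option autoImplicit false

/-!
Approximation over the complex numbers for all groups built by graphs of groups and unions.
-/

open Filter

/-- Let `G` be a group in the smallest class which contains the trivial groups and is closed under
directed unions and under graphs of groups (actions on trees without inversions), and let
`π i : G → H i` be homomorphisms such that every `g ≠ 1` eventually has nontrivial image. Then
approximation with complex coefficients holds for `G` along the `π i`. -/
theorem Pool.Agent.HI.Kept.HierarchyApprox.result (G : Type) [Group G]
    (hG : Pool.Agent.HI.Hier G) {I : Type} (l : Filter I) {H : I → Type} [∀ i, Group (H i)]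
    (π : ∀ i, G →* H i) (hπ : ∀ g : G, g ≠ 1 → ∀ᶠ i in l, π i g ≠ 1) :
    Pool.Agent.HX.ApproxAlong ⊤ l π :=
  Pool.Agent.HI.approx_of_hier ⊤ G hG l π hπ
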